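import Mathlib

/-!
# Reflections in pairwise orthogonal roots
-/

set_option autoImplicit false

namespace Pool.Agent.H673R5.Ort

open Matrix

variable {R : Type} [CommRing R] {ι κ : Type} [Fintype ι] [DecidableEq ι] [Fintype κ]
  [DecidableEq κ]

/-- the product of the reflections with `a i = 1` -/
def Dm (V : Matrix ι κ R) (F : Matrix κ ι R) (a : κ → R) : Matrix ι ι R := 1 - V * diagonal a * F

lemma Dm_mul {V : Matrix ι κ R} {F : Matrix κ ι R} (h : F * V = (2 : R) • (1 : Matrix κ κ R))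
    (a b : κ → R) : Dm V F a * Dm V F b = Dm V F (fun i => a i + b i - 2 * (a i * b i)) := by
  have h1 : V * diagonal a * F * (V * diagonal b * F) =
      V * diagonal (fun i => 2 * (a i * b i)) * F := by
    calc V * diagonal a * F * (V * diagonal b * F) = V * (diagonal a * (F * V) * diagonal b) * F := by
          simp only [Matrix.mul_assoc]
      _ = _ := by
          rw [h, Matrix.mul_smul, Matrix.mul_one, Matrix.smul_mul, diagonal_mul_diagonal,
            ← diagonal_smul]
          rfl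
  have h2 : diagonal (fun i => a i + b i - 2 * (a i * b i)) =
      diagonal a + diagonal b - diagonal (fun i => 2 * (a i * b i)) := by
    rw [diagonal_add, diagonal_sub]
  unfold Dm
  rw [Matrix.sub_mul, Matrix.mul_sub, Matrix.mul_sub, h1, h2, Matrix.mul_sub, Matrix.mul_add,
    Matrix.sub_mul, Matrix.add_mul, Matrix.one_mul, Matrix.mul_one, Matrix.one_mul]
  abel

lemma Dm_zero (V : Matrix ι κ R) (F : Matrix κ ι R) : Dm V F (fun _ => 0) = 1 := by
  unfold Dm
  have h : (diagonal (fun _ : κ => (0 : R))) = 0 := diagonal_zero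
  rw [h, Matrix.mul_zero, Matrix.zero_mul, sub_zero]

lemma Dm_form {V : Matrix ι κ R} {F : Matrix κ ι R} {Q : Matrix ι ι R} {q a : κ → R}
    (h : F * V = (2 : R) • (1 : Matrix κ κ R)) (h1 : Q * V = Fᵀ * diagonal q)
    (h2 : Vᵀ * Q = diagonal q * F) (ha : ∀ i, a i * a i = a i) :
    (Dm V F a)ᵀ * Q * Dm V F a = Q := by
  have e1 : (Dm V F a)ᵀ = 1 - Fᵀ * diagonal a * Vᵀ := by
    unfold Dm
    rw [transpose_sub, transpose_one, transpose_mul, transpose_mul, diagonal_transpose,
      Matrix.mul_assoc]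
  have e2 : Fᵀ * diagonal a * Vᵀ * Q = Fᵀ * diagonal (fun i => a i * q i) * F := by
    calc Fᵀ * diagonal a * Vᵀ * Q = Fᵀ * diagonal a * (Vᵀ * Q) := by simp only [Matrix.mul_assoc]
      _ = Fᵀ * (diagonal a * diagonal q) * F := by rw [h2]; simp only [Matrix.mul_assoc]
      _ = _ := by rw [diagonal_mul_diagonal]
  have e3 : Q * (V * diagonal a * F) = Fᵀ * diagonal (fun i => a i * q i) * F := by
    calc Q * (V * diagonal a * F) = (Q * V) * diagonal a * F := by simp only [Matrix.mul_assoc]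
      _ = Fᵀ * (diagonal q * diagonal a) * F := by rw [h1]; simp only [Matrix.mul_assoc]
      _ = _ := by
        rw [diagonal_mul_diagonal]
        congr 3
        funext i
        ring
  have e4 : Fᵀ * diagonal (fun i => a i * q i) * F * (V * diagonal a * F) =
      (2 : R) • (Fᵀ * diagonal (fun i => a i * q i) * F) := by
    calc Fᵀ * diagonal (fun i => a i * q i) * F * (V * diagonal a * F) =
        Fᵀ * (diagonal (fun i => a i * q i) * (F * V) * diagonal a) * F := by
          simp only [Matrix.mul_assoc]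
      _ = Fᵀ * ((2 : R) • diagonal (fun i => a i * q i)) * F := by
          rw [h, Matrix.mul_smul, Matrix.mul_one, Matrix.smul_mul, diagonal_mul_diagonal]
          congr 4
          funext i
          rw [mul_right_comm, ha]
      _ = _ := by rw [Matrix.mul_smul, Matrix.smul_mul]
  rw [e1, Matrix.sub_mul, Matrix.one_mul, e2]
  unfold Dm
  rw [Matrix.mul_sub, Matrix.mul_one, Matrix.sub_mul, e3, e4, two_smul]
  abel

/-- if the product is a scalar then all or none of the reflections occur -/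
lemma Dm_scalar {V : Matrix ι κ R} {F : Matrix κ ι R} (h : F * V = (2 : R) • (1 : Matrix κ κ R))
    {a : κ → R} {c : R} (hc : Dm V F a = c • 1) (i : κ) : 2 * (1 - 2 * a i) = 2 * c := by
  have h1 : F * (Dm V F a * V) = (2 : R) • ((1 : Matrix κ κ R) - (2 : R) • diagonal a) := by
    unfold Dm
    rw [Matrix.sub_mul, Matrix.one_mul]
    have e : V * diagonal a * F * V = V * diagonal a * (F * V) := by simp only [Matrix.mul_assoc]
    rw [e, h, Matrix.mul_smul, Matrix.mul_one, Matrix.mul_sub, Matrix.mul_smul, ← Matrix.mul_assoc,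
      h, Matrix.smul_mul, Matrix.one_mul, smul_sub]
  rw [hc, Matrix.smul_mul, Matrix.one_mul, Matrix.mul_smul, h] at h1
  have h2 := congrFun (congrFun h1 i) i
  simp only [Matrix.smul_apply, Matrix.sub_apply, one_apply_eq, diagonal_apply_eq, smul_eq_mul] at h2
  linear_combination -h2

/-- the form `Q` has `card κ` pairwise orthogonal roots: the columns of `V` are the roots `v`, the rows of `F` the
linear forms `f` with `f (v) = 2`, `f (v') = 0` for the other roots `v'`, and `Q (v, x) = Q (x, v) = q f (x)` -/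
def HasRoots (κ : Type) [Fintype κ] [DecidableEq κ] (Q : Matrix ι ι R) (V : Matrix ι κ R)
    (F : Matrix κ ι R) (q : κ → R) : Prop :=
  F * V = (2 : R) • (1 : Matrix κ κ R) ∧ Q * V = Fᵀ * diagonal q ∧ Vᵀ * Q = diagonal q * F

/-- the form `Q` has `card κ` pairwise orthogonal roots -/
def HasSome (κ : Type) [Fintype κ] [DecidableEq κ] (Q : Matrix ι ι R) : Prop :=
  ∃ (V : Matrix ι κ R) (F : Matrix κ ι R) (q : κ → R), HasRoots κ Q V F q

/-- the matrix group which preserves the bilinear form -/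
def OG (Q : Matrix ι ι R) : Subgroup (Matrix ι ι R)ˣ where
  carrier := {g | (g : Matrix ι ι R)ᵀ * Q * (g : Matrix ι ι R) = Q}
  one_mem' := by
    show (1 : Matrix ι ι R)ᵀ * Q * (1 : Matrix ι ι R) = Q
    rw [transpose_one, one_mul, mul_one]
  mul_mem' := by
    intro g h hg hh
    have hg' : (g : Matrix ι ι R)ᵀ * Q * (g : Matrix ι ι R) = Q := hg
    have hh' : (h : Matrix ι ι R)ᵀ * Q * (h : Matrix ι ι R) = Q := hh
    show ((g : Matrix ι ι R) * (h : Matrix ι ι R))ᵀ * Q * ((g : Matrix ι ι R) * (h : Matrix ι ι R)) = Q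
    rw [transpose_mul]
    calc _ = (h : Matrix ι ι R)ᵀ * ((g : Matrix ι ι R)ᵀ * Q * (g : Matrix ι ι R)) *
          (h : Matrix ι ι R) := by simp only [Matrix.mul_assoc]
      _ = Q := by rw [hg', hh']
  inv_mem' := by
    intro g hg
    have hg' : (g : Matrix ι ι R)ᵀ * Q * (g : Matrix ι ι R) = Q := hg
    show ((g⁻¹ : (Matrix ι ι R)ˣ) : Matrix ι ι R)ᵀ * Q * ((g⁻¹ : (Matrix ι ι R)ˣ) : Matrix ι ι R) = Q
    have h1 : (g : Matrix ι ι R) * ((g⁻¹ : (Matrix ι ι R)ˣ) : Matrix ι ι R) = 1 := g.mul_inv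
    have h2 : ((g⁻¹ : (Matrix ι ι R)ˣ) : Matrix ι ι R)ᵀ * (g : Matrix ι ι R)ᵀ = 1 := by
      rw [← transpose_mul, h1, transpose_one]
    conv_lhs => rw [← hg']
    calc _ = (((g⁻¹ : (Matrix ι ι R)ˣ) : Matrix ι ι R)ᵀ * (g : Matrix ι ι R)ᵀ) * Q *
        ((g : Matrix ι ι R) * ((g⁻¹ : (Matrix ι ι R)ˣ) : Matrix ι ι R)) := by
          simp only [Matrix.mul_assoc]
      _ = Q := by rw [h1, h2, one_mul, mul_one]

/-- the exponent `0` or `1` -/
def ep (R : Type) [CommRing R] (x : Multiplicative (ZMod 2)) : R := if x = 1 then 0 else 1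

lemma two_cases (x : Multiplicative (ZMod 2)) : x = 1 ∨ x = Multiplicative.ofAdd 1 := by
  revert x; decide

lemma ne_one : (Multiplicative.ofAdd (1 : ZMod 2)) ≠ 1 := by decide

lemma sq_one : (Multiplicative.ofAdd (1 : ZMod 2)) * Multiplicative.ofAdd 1 = 1 := by decide

lemma ep_one : ep R 1 = 0 := if_pos rfl

lemma ep_gen : ep R (Multiplicative.ofAdd 1) = 1 := if_neg ne_one

lemma ep_mul (x y : Multiplicative (ZMod 2)) :
    ep R (x * y) = ep R x + ep R y - 2 * (ep R x * ep R y) := by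
  rcases two_cases x with rfl | rfl <;> rcases two_cases y with rfl | rfl
  · rw [mul_one, ep_one]; ring
  · rw [one_mul, ep_one, ep_gen]; ring
  · rw [mul_one, ep_one, ep_gen]; ring
  · rw [sq_one, ep_one, ep_gen]; ring

lemma ep_idem (x : Multiplicative (ZMod 2)) : ep R x * ep R x = ep R x := by
  rcases two_cases x with rfl | rfl
  · rw [ep_one]; ring
  · rw [ep_gen]; ring

/-- the product of the reflections in the roots `v i` with `x i ≠ 1` -/
def Dx (V : Matrix ι κ R) (F : Matrix κ ι R) (x : κ → Multiplicative (ZMod 2)) : Matrix ι ι R :=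
  Dm V F (fun i => ep R (x i))

/-- the homomorphism -/
def dhom (V : Matrix ι κ R) (F : Matrix κ ι R) (h : F * V = (2 : R) • (1 : Matrix κ κ R)) :
    (κ → Multiplicative (ZMod 2)) →* (Matrix ι ι R)ˣ :=
  MonoidHom.toHomUnits
    { toFun := fun x => Dx V F x
      map_one' := by
        have : (fun i : κ => ep R ((1 : κ → Multiplicative (ZMod 2)) i)) = fun _ => 0 := by
          funext i
          exact ep_one
        show Dm V F (fun i => ep R ((1 : κ → Multiplicative (ZMod 2)) i)) = 1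
        rw [this, Dm_zero]
      map_mul' := fun x y => by
        show Dm V F (fun i => ep R ((x * y) i)) = Dm V F _ * Dm V F _
        rw [Dm_mul h]
        congr 1
        funext i
        exact ep_mul _ _ }

lemma Dx_mem {V : Matrix ι κ R} {F : Matrix κ ι R} {Q : Matrix ι ι R} {q : κ → R}
    (h : HasRoots κ Q V F q) (x : κ → Multiplicative (ZMod 2)) : dhom V F h.1 x ∈ OG Q :=
  Dm_form h.1 h.2.1 h.2.2 fun _ => ep_idem _

lemma card_dvd (h4 : (4 : R) ≠ 0) {V : Matrix ι κ R} {F : Matrix κ ι R}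
    (h : F * V = (2 : R) • (1 : Matrix κ κ R)) (K : Subgroup (κ → Multiplicative (ZMod 2)))
    (hK : ∀ x ∈ K, ∃ c : R, Dx V F x = c • 1) : Nat.card K ∣ 2 := by
  have hle : K ≤ Subgroup.zpowers (fun _ : κ => Multiplicative.ofAdd (1 : ZMod 2)) := by
    intro x hx
    obtain ⟨c, hc⟩ := hK x hx
    have h1 : ∀ i j, x i = 1 → x j = 1 := by
      intro i j hi
      rcases two_cases (x j) with hj | hj
      · exact hj
      · exfalso
        have e1 := Dm_scalar h hc i
        have e2 := Dm_scalar h hc j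
        simp only [hi, hj, ep_one, ep_gen] at e1 e2
        apply h4
        linear_combination e1 - e2
    by_cases h2 : ∃ i, x i = 1
    · obtain ⟨i, hi⟩ := h2
      have : x = 1 := by
        funext j
        exact h1 i j hi
      rw [this]
      exact one_mem _
    · push Not at h2
      have : x = fun _ => Multiplicative.ofAdd 1 := by
        funext j
        exact (two_cases (x j)).resolve_left (h2 j)
      rw [this]
      exact Subgroup.mem_zpowers _
  refine (Subgroup.card_dvd_of_le hle).trans ?_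
  rw [Nat.card_zpowers]
  apply orderOf_dvd_of_pow_eq_one
  funext i
  show (Multiplicative.ofAdd (1 : ZMod 2)) ^ 2 = 1
  decide

/-! ## Examples -/

/-- the hyperbolic plane -/
lemma roots_U : HasRoots (Fin 2) (!![0, 1; 1, 0] : Matrix (Fin 2) (Fin 2) R) !![1, 1; 1, -1]
    !![1, 1; 1, -1] ![1, -1] := by
  refine ⟨?_, ?_, ?_⟩
  · ext i j
    fin_cases i <;> fin_cases j <;> simp [Matrix.mul_apply, Fin.sum_univ_two] <;> norm_num
  · ext i j
    fin_cases i <;> fin_cases j <;> simp [Matrix.mul_apply, Fin.sum_univ_two]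
  · ext i j
    fin_cases i <;> fin_cases j <;> simp [Matrix.mul_apply, Fin.sum_univ_two]

/-- the edges of the Dynkin diagram of type `E₈` -/
def edges : List (ℕ × ℕ) := [(0, 2), (1, 3), (2, 3), (3, 4), (4, 5), (5, 6), (6, 7)]

/-- the Cartan matrix of type `E₈` -/
def E8 : Matrix (Fin 8) (Fin 8) ℤ := fun i j =>
  if i = j then 2 else if (i.val, j.val) ∈ edges ∨ (j.val, i.val) ∈ edges then -1 else 0

/-- eight pairwise orthogonal roots -/
def V8 : Matrix (Fin 8) (Fin 8) ℤ :=
  ![![0, 0, 0, 1, 1, 1, 1, 2], ![0, 0, 0, 0, 2, 2, 2, 2], ![0, 0, 0, 0, 2, 2, 2, 4],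
    ![0, 0, 1, 0, 3, 3, 4, 5], ![0, 0, 0, 0, 2, 2, 4, 4], ![0, 1, 0, 0, 1, 2, 3, 3],
    ![0, 0, 0, 0, 0, 2, 2, 2], ![1, 0, 0, 0, 0, 1, 1, 1]]

lemma E8_symm : E8ᵀ = E8 := by decide

lemma V8_roots : (V8ᵀ * E8) * V8 = (2 : ℤ) • (1 : Matrix (Fin 8) (Fin 8) ℤ) := by decide

variable (R) in
/-- a matrix of integers as a matrix over `R` -/
def cm {α β : Type} (A : Matrix α β ℤ) : Matrix α β R := A.map (Int.castRingHom R)

lemma roots_E8 : HasRoots (Fin 8) (cm R E8) (cm R V8) (cm R (V8ᵀ * E8)) (fun _ => 1) := by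
  have hm : ∀ A B : Matrix (Fin 8) (Fin 8) ℤ, cm R (A * B) = cm R A * cm R B := fun A B =>
    Matrix.map_mul
  have ht : ∀ A : Matrix (Fin 8) (Fin 8) ℤ, (cm R A)ᵀ = cm R Aᵀ := fun A => rfl
  have h1 : (diagonal (fun _ : Fin 8 => (1 : R))) = 1 := diagonal_one
  refine ⟨?_, ?_, ?_⟩
  · rw [← hm, V8_roots]
    ext i j
    simp only [cm, Matrix.map_apply, Matrix.smul_apply, Matrix.one_apply, smul_eq_mul]
    split_ifs <;> simp
  · rw [h1, Matrix.mul_one, ht, transpose_mul, transpose_transpose, E8_symm, hm]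
  · rw [h1, Matrix.one_mul, ht, hm]

/-- orthogonal sums of multiples of a form -/
lemma roots_block {k : ℕ} {Q : Matrix ι ι R} {V : Matrix ι κ R} {F : Matrix κ ι R} {q : κ → R}
    (h : HasRoots κ Q V F q) (c : Fin k → R) :
    HasRoots (κ × Fin k) (blockDiagonal fun i => c i • Q) (blockDiagonal fun _ => V)
      (blockDiagonal fun _ => F) (fun x => c x.2 * q x.1) := by
  have hd : (diagonal (fun x : κ × Fin k => c x.2 * q x.1)) =
      blockDiagonal (fun i => c i • diagonal q) := by
    ext ⟨a, i⟩ ⟨b, j⟩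
    rw [blockDiagonal_apply, diagonal_apply]
    by_cases hij : i = j
    · subst hij
      by_cases hab : a = b
      · subst hab
        simp
      · rw [if_neg (by simpa using hab), if_pos rfl, Matrix.smul_apply, diagonal_apply_ne _ hab]
        simp
    · rw [if_neg (fun h => hij (congrArg Prod.snd h)), if_neg hij]
  refine ⟨?_, ?_, ?_⟩
  · rw [← blockDiagonal_mul, h.1]
    ext ⟨a, i⟩ ⟨b, j⟩
    rw [blockDiagonal_apply, Matrix.smul_apply, Matrix.one_apply]
    by_cases hij : i = j
    · subst hij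
      simp [Matrix.one_apply]
    · simp [hij]
  · rw [hd, ← blockDiagonal_mul, blockDiagonal_transpose, ← blockDiagonal_mul]
    congr 1
    funext i
    rw [Matrix.smul_mul, h.2.1, Matrix.mul_smul]
  · rw [hd, blockDiagonal_transpose, ← blockDiagonal_mul, ← blockDiagonal_mul]
    congr 1
    funext i
    rw [Matrix.mul_smul, h.2.2, Matrix.smul_mul]

/-- orthogonal sums -/
lemma roots_sum {ι' κ' : Type} [Fintype ι'] [DecidableEq ι'] [Fintype κ'] [DecidableEq κ']
    {Q : Matrix ι ι R} {V : Matrix ι κ R} {F : Matrix κ ι R} {q : κ → R}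
    {Q' : Matrix ι' ι' R} {V' : Matrix ι' κ' R} {F' : Matrix κ' ι' R} {q' : κ' → R}
    (h : HasRoots κ Q V F q) (h' : HasRoots κ' Q' V' F' q') :
    HasRoots (κ ⊕ κ') (fromBlocks Q 0 0 Q') (fromBlocks V 0 0 V') (fromBlocks F 0 0 F')
      (Sum.elim q q') := by
  have hd : diagonal (Sum.elim q q') = fromBlocks (diagonal q) 0 0 (diagonal q') :=
    (fromBlocks_diagonal _ _).symm
  refine ⟨?_, ?_, ?_⟩
  · rw [fromBlocks_multiply, h.1, h'.1, ← fromBlocks_one, fromBlocks_smul]
    simp
  · rw [hd, fromBlocks_multiply, fromBlocks_transpose, fromBlocks_multiply, h.2.1, h'.2.1]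
    simp
  · rw [hd, fromBlocks_transpose, fromBlocks_multiply, fromBlocks_multiply, h.2.2, h'.2.2]
    simp

end Pool.Agent.H673R5.Ort
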